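import Pool.Agent.N996.FP.FinT

/-!
# One power decides: arbitrary systems of Hodge classes
-/

open CategoryTheory AlgebraicGeometry

universe u

namespace Pool.Agent.U228.OP

open Module
open Pool.Agent.H914 Pool.Agent.H914.VarClass Pool.Agent.H914.VarClass.Obj
  Pool.Agent.H914.WeilCohomology
open Pool.Agent.Y121.AHS
open Pool.Agent.Y133.Half (pw ClassPred Sys)
open Pool.Agent.Y121.AH (hodgePred)
open Pool.Agent.N996.FP

variable {k : Type u} [Field k] {𝒱 : VarClass k} {ops : CycleOps 𝒱} {T : HodgeTheory ops}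
  {X Y : 𝒱.Obj} {Q : ClassPred T.W}

lemma le_iff : (∀ (j : ℕ) (c : T.W.H X), IsHodge T X j c → Q.P X j c) ↔
    (hodgePred (toH T)).sp X ≤ Q.sp X := by
  constructor
  · intro h c hc
    refine ClassPred.sp_ind (Q := hodgePred (toH T)) (q := fun c => c ∈ Q.sp X)
      ?_ ?_ ?_ hc
    · intro j x hx; exact ClassPred.sp_of (h j x hx)
    · exact Submodule.zero_mem _
    · intro a b ha hb; exact Submodule.add_mem _ ha hb
  · intro h j c hc
    have h1 := h (ClassPred.sp_of (Q := hodgePred (toH T)) hc)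
    have h2 := ClassPred.sp_proj h1 j
    have h3 : Pool.Agent.H914.proj (T.W.isInternal X) (2 * j) c = c := proj_same _ hc.1
    rw [h3] at h2
    exact h2

/-- **One power decides.** -/
theorem one_power (hQ : ∀ {X : 𝒱.Obj} {j : ℕ} {c : T.W.H X}, Q.P X j c → IsHodge T X j c)
    {ψ : RForm T.W X} (hψ : IsPolarisation T X ψ) {N : ℕ}
    (hN : AdmT T X ψ (transBetti T X) N)
    (h : ∀ (j : ℕ) (c : T.W.H (pw X (N - 1))), IsHodge T _ j c → Q.P _ j c) (n : ℕ) (j : ℕ)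
    (c : T.W.H (pw X n)) (hc : IsHodge T _ j c) : Q.P _ j c := by
  have h1 := admT_c hψ hN (Q.sys.csys X)
    (fun n => Submodule.span_mono fun _ ⟨j, hj⟩ => ⟨j, hQ hj⟩) (le_iff.1 h) n
  exact le_iff.2 h1 j c hc

lemma corr_mem {z : T.W.H (X.prod Y)} {x : T.W.H X} (hz : z ∈ Q.sp (X.prod Y))
    (hx : x ∈ Q.sp X) : T.W.push (snd X Y) (z * T.W.map (fst X Y) x) ∈ Q.sp Y :=
  Q.sys.push _ (Q.sys.mul hz (Q.sys.map _ hx))

/-- **The varieties whose cohomology comes from powers.** -/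
theorem from_powers (hQ : ∀ {X : 𝒱.Obj} {j : ℕ} {c : T.W.H X}, Q.P X j c → IsHodge T X j c)
    (hX : ∀ (n j : ℕ) (c : T.W.H (pw X n)), IsHodge T _ j c → Q.P _ j c)
    {r : ℕ} {m a b : Fin r → ℕ} {u : ∀ i, T.W.H (Y.prod (pw X (m i)))}
    {v : ∀ i, T.W.H ((pw X (m i)).prod Y)}
    (huv : ∀ i, Q.P (Y.prod (pw X (m i))) (a i) (u i) ∧ Q.P ((pw X (m i)).prod Y) (b i) (v i))
    (hid : ∀ y : T.W.H Y, ∑ i, T.W.push (snd (pw X (m i)) Y) (v i * T.W.map (fst (pw X (m i)) Y)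
      (T.W.push (snd Y (pw X (m i))) (u i * T.W.map (fst Y (pw X (m i))) y))) = y)
    (j : ℕ) (c : T.W.H Y) (hc : IsHodge T Y j c) : Q.P Y j c := by
  refine le_iff.2 ?_ j c hc
  intro c hc
  rw [← hid c]
  refine Submodule.sum_mem _ fun i _ => ?_
  have hu1 : u i ∈ (hodgePred (toH T)).sp (Y.prod (pw X (m i))) :=
    ClassPred.sp_of (Q := hodgePred (toH T)) (hQ (huv i).1)
  have hu : T.W.push (snd Y (pw X (m i))) (u i * T.W.map (fst Y (pw X (m i))) c) ∈
    (hodgePred (toH T)).sp (pw X (m i)) := corr_mem hu1 hc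
  have h2 := le_iff.1 (hX (m i)) hu
  exact corr_mem (ClassPred.sp_of (huv i).2) h2

end Pool.Agent.U228.OP
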