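import Pool.Agent.N996.FP.DefsT
import Pool.Agent.R920.MT.Defs

/-!
# Hodge classes and motivated classes: definitions
-/

open CategoryTheory AlgebraicGeometry

universe u

namespace Pool.Agent.U228.OP

open Pool.Agent.H914 Pool.Agent.H914.VarClass Pool.Agent.H914.VarClass.Obj
  Pool.Agent.H914.WeilCohomology
open Pool.Agent.Y121.AHS Pool.Agent.R920.MT
open Pool.Agent.Y133.Half (pw)
open Pool.Agent.N996.FP (pull push)

variable {k : Type u} [Field k] {𝒱 : VarClass k} {ops : CycleOps 𝒱}

/-- All Hodge classes on `X` are motivated. -/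
def HodgeAreMotivated (T : HodgeTheory ops) (X : 𝒱.Obj) : Prop :=
  ∀ (j : ℕ) (c : T.W.H X), IsHodge T X j c → IsMotivated T.W X j c

/-- The correspondence `H(X) → H(Y)`, `x ↦ pr₂_* (z · pr₁^* x)`, given by the class `z` on
`X × Y`. -/
noncomputable def actC (W : WeilCohomology.{u, 0} ops) {X Y : 𝒱.Obj} (z : W.H (X.prod Y))
    (x : W.H X) : W.H Y := push W (snd X Y) (z * pull W (fst X Y) x)

/-- The cohomology of `Y` comes from powers of `X` by motivated correspondences: the identity
of `H(Y)` is a finite sum of compositions `H(Y) → H(X ^ (m + 1)) → H(Y)` of correspondences given by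
motivated classes. (It means that the André motive of `Y` is a direct summand of a sum of Tate twists
of André motives of powers of `X`.) -/
def FromPowersMot (W : WeilCohomology.{u, 0} ops) (X Y : 𝒱.Obj) : Prop :=
  ∃ (r : ℕ) (m a b : Fin r → ℕ) (u : ∀ i, W.H (Y.prod (pw X (m i))))
    (v : ∀ i, W.H ((pw X (m i)).prod Y)),
    (∀ i, IsMotivated W (Y.prod (pw X (m i))) (a i) (u i) ∧
      IsMotivated W ((pw X (m i)).prod Y) (b i) (v i)) ∧
    ∀ y : W.H Y, ∑ i, actC W (v i) (actC W (u i) y) = y

end Pool.Agent.U228.OP
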